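import Pool.Agent.H68.GHY.Targets
import Pool.Agent.H23.GB.TargetsA
import Pool.Agent.H34.GU.MOU

/-!
Row GBM of the board ghy: the hybrid fourth moment from the bound for one value on the critical line
(two versions: `T_HYA` of helper23 and `T_PWB` of helper68), the fourth moment of the truncated
L-functions and the number of forms.
-/

namespace Pool.Agent.H25.GHY

open MeasureTheory Pool.Agent.H34.GM Pool.Agent.H34.GZ Pool.Agent.H34.GU Pool.Agent.H34.GA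
open Pool.Agent.H68.GHY

/-- Hölder for a nonnegative kernel -/
lemma gbm_holder (κ f : ℝ → ENNReal) (hκ : AEMeasurable κ volume)
    (hf : AEMeasurable f volume) :
    (∫⁻ τ, κ τ * f τ) ^ 4 ≤ (∫⁻ τ, κ τ) ^ 3 * ∫⁻ τ, κ τ * f τ ^ 4 := by
  have hpq : (4 / 3 : ℝ).HolderConjugate 4 := by
    constructor <;> norm_num
  have h := ENNReal.lintegral_mul_le_Lp_mul_Lq volume hpq
    (f := fun τ => κ τ ^ (3 / 4 : ℝ)) (g := fun τ => κ τ ^ (1 / 4 : ℝ) * f τ)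
    (hκ.pow_const _) ((hκ.pow_const _).mul hf)
  have e1 : ∀ τ, (fun τ => κ τ ^ (3 / 4 : ℝ)) τ * (fun τ => κ τ ^ (1 / 4 : ℝ) * f τ) τ =
      κ τ * f τ := by
    intro τ
    show κ τ ^ (3 / 4 : ℝ) * (κ τ ^ (1 / 4 : ℝ) * f τ) = κ τ * f τ
    rw [← mul_assoc, ← ENNReal.rpow_add_of_nonneg _ _ (by norm_num) (by norm_num)]
    norm_num
  have e2 : ∀ τ, (κ τ ^ (3 / 4 : ℝ)) ^ (4 / 3 : ℝ) = κ τ := by
    intro τ
    rw [← ENNReal.rpow_mul]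
    norm_num
  have e3 : ∀ τ, (κ τ ^ (1 / 4 : ℝ) * f τ) ^ (4 : ℝ) = κ τ * f τ ^ 4 := by
    intro τ
    rw [ENNReal.mul_rpow_of_nonneg _ _ (by norm_num), ← ENNReal.rpow_mul]
    norm_num
  simp only [Pi.mul_apply, e2, e3] at h
  rw [show (∫⁻ τ, κ τ ^ (3 / 4 : ℝ) * (κ τ ^ (1 / 4 : ℝ) * f τ)) = ∫⁻ τ, κ τ * f τ from
    lintegral_congr e1] at h
  calc (∫⁻ τ, κ τ * f τ) ^ 4 ≤ ((∫⁻ τ, κ τ) ^ (1 / (4 / 3) : ℝ) *
        (∫⁻ τ, κ τ * f τ ^ 4) ^ (1 / 4 : ℝ)) ^ 4 := pow_le_pow_left' h 4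
    _ = _ := by
        rw [mul_pow, ← ENNReal.rpow_natCast (_ ^ (1 / (4 / 3) : ℝ)), ← ENNReal.rpow_mul,
          ← ENNReal.rpow_natCast (_ ^ (1 / 4 : ℝ)), ← ENNReal.rpow_mul]
        norm_num

lemma gbm_ofReal_int (κ f : ℝ → ℝ) (hnn : ∀ τ, 0 ≤ κ τ) (hf : ∀ τ, 0 ≤ f τ) :
    ENNReal.ofReal (∫ τ, κ τ * f τ) ≤ ∫⁻ τ, ENNReal.ofReal (κ τ) * ENNReal.ofReal (f τ) := by
  by_cases h : Integrable (fun τ => κ τ * f τ)
  · rw [ofReal_integral_eq_lintegral_ofReal h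
      (Filter.Eventually.of_forall fun τ => mul_nonneg (hnn τ) (hf τ))]
    exact le_of_eq (lintegral_congr fun τ => ENNReal.ofReal_mul (hnn τ))
  · rw [integral_undef h]
    simp

lemma gbm_SD_cont (lam : ℕ → ℂ) (X : ℝ) : Continuous (fun t : ℝ => SD lam X t) := by
  unfold SD
  refine continuous_finsetSum _ (fun n hn => ?_)
  have hn1 : 1 ≤ n := (Finset.mem_Icc.1 hn).1
  have hn0 : (n : ℂ) ≠ 0 := by
    exact_mod_cast (by omega : n ≠ 0)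
  refine continuous_const.mul (Continuous.const_cpow ?_ (Or.inl hn0))
  fun_prop

/-- one form: fourth power of one plus the smoothed sum -/
lemma gbm_one (κ : ℝ → ℝ) (hκ : Integrable κ) (hnn : ∀ τ, 0 ≤ κ τ) (lam : ℕ → ℂ) (X b t : ℝ) :
    ENNReal.ofReal ((1 + ∫ τ, κ τ * ‖SD lam X (t + b * τ)‖) ^ 4) ≤
      8 * (1 + ENNReal.ofReal (∫ τ, κ τ) ^ 3 *
        ∫⁻ τ, ENNReal.ofReal (κ τ) * ENNReal.ofReal (‖SD lam X (t + b * τ)‖ ^ 4)) := by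
  set J : ℝ := ∫ τ, κ τ * ‖SD lam X (t + b * τ)‖ with hJ
  have hJ0 : 0 ≤ J := integral_nonneg fun τ => mul_nonneg (hnn τ) (norm_nonneg _)
  have h1 : (1 + J) ^ 4 ≤ 8 * (1 + J ^ 4) := by
    have := add_pow_le (a := (1 : ℝ)) (b := J) zero_le_one hJ0 4
    norm_num at this
    exact this
  have hcont : Continuous (fun τ : ℝ => ‖SD lam X (t + b * τ)‖) :=
    ((gbm_SD_cont lam X).comp (by fun_prop : Continuous fun τ : ℝ => t + b * τ)).norm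
  have h2 : ENNReal.ofReal J ^ 4 ≤ ENNReal.ofReal (∫ τ, κ τ) ^ 3 *
      ∫⁻ τ, ENNReal.ofReal (κ τ) * ENNReal.ofReal (‖SD lam X (t + b * τ)‖ ^ 4) := by
    have h3 := gbm_ofReal_int κ (fun τ => ‖SD lam X (t + b * τ)‖) hnn (fun τ => norm_nonneg _)
    have h4 := gbm_holder (fun τ => ENNReal.ofReal (κ τ))
      (fun τ => ENNReal.ofReal ‖SD lam X (t + b * τ)‖)
      hκ.aestronglyMeasurable.aemeasurable.ennreal_ofReal
      (hcont.measurable.ennreal_ofReal.aemeasurable)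
    refine (pow_le_pow_left' h3 4).trans (h4.trans ?_)
    rw [ofReal_integral_eq_lintegral_ofReal hκ (Filter.Eventually.of_forall hnn)]
    refine mul_le_mul' le_rfl (le_of_eq (lintegral_congr fun τ => ?_))
    rw [ENNReal.ofReal_pow (norm_nonneg _)]
  refine (ENNReal.ofReal_le_ofReal h1).trans ?_
  rw [ENNReal.ofReal_mul (by norm_num), ENNReal.ofReal_add zero_le_one (by positivity),
    ENNReal.ofReal_one, ENNReal.ofReal_pow hJ0]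
  rw [show ENNReal.ofReal 8 = 8 from by norm_num]
  gcongr

/-- the family, in extended numbers -/
lemma gbm_sum {ι : Type} [Fintype ι] (κ : ℝ → ℝ) (hκ : Integrable κ) (hnn : ∀ τ, 0 ≤ κ τ)
    (lam : ι → ℕ → ℂ) (X b P : ℝ) (BD : ENNReal)
    (hBD : ∀ τ : ℝ, ∑ i, ∫⁻ t in Set.Icc (-P) P,
      ENNReal.ofReal (‖SD (lam i) X (t + b * τ)‖ ^ 4) ≤ BD) :
    ∑ i, ∫⁻ t in Set.Icc (-P) P, ENNReal.ofReal
      ((1 + ∫ τ, κ τ * ‖SD (lam i) X (t + b * τ)‖) ^ 4) ≤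
    8 * (Fintype.card ι * ENNReal.ofReal (2 * P) +
      ENNReal.ofReal (∫ τ, κ τ) ^ 4 * BD) := by
  have hm : ∀ i, AEMeasurable (fun p : ℝ × ℝ => ENNReal.ofReal (κ p.2) *
      ENNReal.ofReal (‖SD (lam i) X (p.1 + b * p.2)‖ ^ 4))
      ((volume.restrict (Set.Icc (-P) P)).prod volume) := by
    intro i
    have h1 : AEMeasurable (fun p : ℝ × ℝ => ENNReal.ofReal (κ p.2))
        ((volume.restrict (Set.Icc (-P) P)).prod volume) :=
      (hκ.aestronglyMeasurable.aemeasurable.ennreal_ofReal).comp_snd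
    have hc : Continuous (fun p : ℝ × ℝ => ‖SD (lam i) X (p.1 + b * p.2)‖ ^ 4) :=
      (((gbm_SD_cont (lam i) X).comp
        (by fun_prop : Continuous fun p : ℝ × ℝ => p.1 + b * p.2)).norm).pow 4
    exact h1.mul hc.measurable.ennreal_ofReal.aemeasurable
  have hswap : ∀ i, ∫⁻ t in Set.Icc (-P) P, ∫⁻ τ, ENNReal.ofReal (κ τ) *
      ENNReal.ofReal (‖SD (lam i) X (t + b * τ)‖ ^ 4) =
      ∫⁻ τ, ENNReal.ofReal (κ τ) * ∫⁻ t in Set.Icc (-P) P,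
        ENNReal.ofReal (‖SD (lam i) X (t + b * τ)‖ ^ 4) := by
    intro i
    rw [lintegral_lintegral_swap (hm i)]
    refine lintegral_congr fun τ => ?_
    exact lintegral_const_mul' _ _ ENNReal.ofReal_ne_top
  have hin : ∀ i, AEMeasurable (fun τ : ℝ => ENNReal.ofReal (κ τ) *
      ∫⁻ t in Set.Icc (-P) P, ENNReal.ofReal (‖SD (lam i) X (t + b * τ)‖ ^ 4)) volume := by
    intro i
    refine AEMeasurable.mul hκ.aestronglyMeasurable.aemeasurable.ennreal_ofReal ?_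
    have hc : Continuous (fun p : ℝ × ℝ => ‖SD (lam i) X (p.2 + b * p.1)‖ ^ 4) :=
      (((gbm_SD_cont (lam i) X).comp
        (by fun_prop : Continuous fun p : ℝ × ℝ => p.2 + b * p.1)).norm).pow 4
    exact (Measurable.lintegral_prod_right hc.measurable.ennreal_ofReal).aemeasurable
  calc ∑ i, ∫⁻ t in Set.Icc (-P) P, ENNReal.ofReal
        ((1 + ∫ τ, κ τ * ‖SD (lam i) X (t + b * τ)‖) ^ 4)
      ≤ ∑ i, ∫⁻ t in Set.Icc (-P) P, 8 * (1 + ENNReal.ofReal (∫ τ, κ τ) ^ 3 *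
        ∫⁻ τ, ENNReal.ofReal (κ τ) * ENNReal.ofReal (‖SD (lam i) X (t + b * τ)‖ ^ 4)) :=
        Finset.sum_le_sum fun i _ => lintegral_mono fun t => gbm_one κ hκ hnn (lam i) X b t
    _ = ∑ i, 8 * (ENNReal.ofReal (2 * P) + ENNReal.ofReal (∫ τ, κ τ) ^ 3 *
        ∫⁻ τ, ENNReal.ofReal (κ τ) * ∫⁻ t in Set.Icc (-P) P,
          ENNReal.ofReal (‖SD (lam i) X (t + b * τ)‖ ^ 4)) := by
        refine Finset.sum_congr rfl fun i _ => ?_
        rw [lintegral_const_mul' _ _ (by norm_num), lintegral_add_left measurable_const,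
          lintegral_const_mul' _ _ (ENNReal.pow_ne_top ENNReal.ofReal_ne_top), hswap i]
        congr 2
        rw [lintegral_const, one_mul, Measure.restrict_apply_univ, Real.volume_Icc]
        congr 1
        ring
    _ = 8 * (Fintype.card ι * ENNReal.ofReal (2 * P) + ENNReal.ofReal (∫ τ, κ τ) ^ 3 *
        ∫⁻ τ, ENNReal.ofReal (κ τ) * ∑ i, ∫⁻ t in Set.Icc (-P) P,
          ENNReal.ofReal (‖SD (lam i) X (t + b * τ)‖ ^ 4)) := by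
        rw [← Finset.mul_sum, Finset.sum_add_distrib, ← Finset.mul_sum]
        rw [← lintegral_finsetSum' _ (fun i _ => hin i)]
        simp only [Finset.mul_sum, Finset.sum_const, Finset.card_univ, nsmul_eq_mul]
    _ ≤ 8 * (Fintype.card ι * ENNReal.ofReal (2 * P) + ENNReal.ofReal (∫ τ, κ τ) ^ 3 *
        ∫⁻ τ, ENNReal.ofReal (κ τ) * BD) := by
        gcongr with τ
        exact hBD τ
    _ = _ := by
        rw [lintegral_mul_const'' _ hκ.aestronglyMeasurable.aemeasurable.ennreal_ofReal,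
          ← ofReal_integral_eq_lintegral_ofReal hκ (Filter.Eventually.of_forall hnn), ← mul_assoc,
          ← pow_succ]

lemma gbm_num {a Q K B : ℝ} (n : ℕ) (ha : 0 ≤ a) (hQ : 0 ≤ Q) (hK : 0 ≤ K) (hB : 0 ≤ B) :
    ENNReal.ofReal a * (8 * ((n : ENNReal) * ENNReal.ofReal (2 * Q) +
      ENNReal.ofReal K ^ 4 * ENNReal.ofReal B)) =
    ENNReal.ofReal (a * (8 * ((n : ℝ) * (2 * Q) + K ^ 4 * B))) := by
  have h1 : ENNReal.ofReal ((n : ℝ) * (2 * Q)) = (n : ENNReal) * ENNReal.ofReal (2 * Q) := by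
    rw [ENNReal.ofReal_mul (Nat.cast_nonneg n), ENNReal.ofReal_natCast]
  have h2 : ENNReal.ofReal (K ^ 4 * B) = ENNReal.ofReal K ^ 4 * ENNReal.ofReal B := by
    rw [ENNReal.ofReal_mul (by positivity), ENNReal.ofReal_pow hK]
  have h3 : ENNReal.ofReal 8 = 8 := by norm_num
  have h4 : ENNReal.ofReal (8 * ((n : ℝ) * (2 * Q) + K ^ 4 * B)) =
      ENNReal.ofReal 8 * ENNReal.ofReal ((n : ℝ) * (2 * Q) + K ^ 4 * B) :=
    ENNReal.ofReal_mul (by norm_num)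
  rw [ENNReal.ofReal_mul ha, h4, h3, ENNReal.ofReal_add (by positivity) (by positivity), h1, h2]

/-- the core of the row, for any bound of one value by the smoothed truncated sum -/
theorem gbm_core (hDYD : T_DYD) (hCRD : T_CRD) (m : ℕ) (hm : 1 ≤ m) (e A b c0 : ℝ) (he : 0 < e)
    (hA : 1 ≤ A) (hc0 : 0 < c0) (κ : ℝ → ℝ) (hκ : Integrable κ) (hnn : ∀ τ, 0 ≤ κ τ) :
    ∃ c : ℝ, 0 < c ∧ c ≤ 1 ∧ c ≤ c0 ∧ ∀ C1 : ℝ, 0 < C1 → ∃ C : ℝ, 0 < C ∧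
    ∀ (N : ℕ) [NeZero N] (T : ℕ → Finset (ZM m)) (D : Set (V m)), SysZ m N T D →
    ∀ P : ℝ, 1 ≤ P → ∀ (ι : Type) [Fintype ι] [DecidableEq ι] (F : ι → Mat m → VN m N → ℂ)
    (lam : ι → ℕ → ℂ), (∀ i, CusB m N T (F i) (lam i) ∧ Lip D (F i) P) → Orthn D F →
    ∀ X : ℝ, 1 ≤ X → X ≤ A * ((N : ℝ) ^ ((1 : ℝ) / 2) * ((c / (1 + P))⁻¹) ^ ((m : ℝ) / 2)) *
      ((N : ℝ) * (c / (1 + P))⁻¹) ^ e →
    ∀ Q : ι → ℝ → ℝ, (∀ i t, |t| ≤ P → 0 ≤ Q i t ∧ Q i t ≤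
      C1 * ((N : ℝ) * (c / (1 + P))⁻¹) ^ e *
        (1 + ∫ τ, κ τ * ‖SD (lam i) X (t + b * τ)‖)) →
    ∑ i, ∫⁻ t in Set.Icc (-P) P, ENNReal.ofReal (Q i t ^ 4) ≤
      ENNReal.ofReal (C * ((N : ℝ) * P) ^ ((2 * m + 8) * e) * (N : ℝ) ^ m * P ^ (m ^ 2)) := by
  obtain ⟨c1, C2, hc1, hC2, hD⟩ := hDYD m hm e A he hA
  obtain ⟨c2, C3, hc2, hC3, hR⟩ := hCRD m hm e he
  set c : ℝ := min (min 1 c0) (min c1 c2) with hc
  have hcpos : 0 < c := lt_min (lt_min one_pos hc0) (lt_min hc1 hc2)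
  have hcle1 : c ≤ 1 := (min_le_left _ _).trans (min_le_left _ _)
  have hclec0 : c ≤ c0 := (min_le_left _ _).trans (min_le_right _ _)
  have hclec1 : c ≤ c1 := (min_le_right _ _).trans (min_le_left _ _)
  have hclec2 : c ≤ c2 := (min_le_right _ _).trans (min_le_right _ _)
  refine ⟨c, hcpos, hcle1, hclec0, ?_⟩
  intro C1 hC1
  set K : ℝ := ∫ τ, κ τ with hK
  have hK0 : 0 ≤ K := integral_nonneg hnn
  set C4 : ℝ := C1 ^ 4 * (8 * (2 * C3 + K ^ 4 * C2)) with hC4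
  have hC4pos : 0 < C4 := by positivity
  refine ⟨C4 * (2 / c) ^ ((2 * (m : ℝ) + 8) * e) * (2 / c) ^ (m ^ 2), by positivity, ?_⟩
  intro N _ T D hS P hP ι _ _ F lam hF hO X hX1 hX Q hQ
  have hN1 : (1 : ℝ) ≤ N := by exact_mod_cast Nat.one_le_iff_ne_zero.2 (NeZero.ne N)
  set δ : ℝ := c / (1 + P) with hδ
  have hP0 : 0 < 1 + P := by linarith
  have hδ0 : 0 < δ := by positivity
  have hδ1 : δ ≤ 1 / 2 := by
    rw [hδ, div_le_div_iff₀ hP0 (by norm_num)]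
    linarith
  have hδP : δ * (1 + P) = c := by rw [hδ]; field_simp
  have hδi : P ≤ δ⁻¹ := by
    rw [le_inv_comm₀ (by linarith) hδ0, hδ, div_le_iff₀ hP0]
    calc c ≤ 1 := hcle1
      _ ≤ P⁻¹ * (1 + P) := by
          rw [mul_add, inv_mul_cancel₀ (by linarith)]
          have : 0 ≤ P⁻¹ * 1 := by positivity
          linarith
  have hδi2 : δ⁻¹ ≤ 2 / c * P := by
    rw [hδ, inv_div, div_le_iff₀ hcpos]
    rw [show 2 / c * P * c = 2 * P by field_simp]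
    linarith
  have hδi0 : 0 < δ⁻¹ := by positivity
  have hδi1 : 1 ≤ δ⁻¹ := hP.trans hδi
  set M : ℝ := (N : ℝ) * δ⁻¹ with hM
  have hM1 : 1 ≤ M := by nlinarith
  have hM0 : 0 < M := by linarith
  set BDr : ℝ := C2 * M ^ ((2 * (m : ℝ) + 4) * e) * (N : ℝ) ^ m * δ⁻¹ ^ (m ^ 2) with hBDr
  have hBDr0 : 0 ≤ BDr := by positivity
  have hBD : ∀ τ : ℝ, ∑ i, ∫⁻ t in Set.Icc (-P) P,
      ENNReal.ofReal (‖SD (lam i) X (t + b * τ)‖ ^ 4) ≤ ENNReal.ofReal BDr := by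
    intro τ
    have h1 := hD N T D hS ι F lam (fun _ => P)
      (fun i => ⟨(hF i).1, (hF i).2, by linarith⟩) hO δ hδ0 hδ1
      (fun i => by rw [hδP]; exact hclec1) X hX1 hX (b * τ)
    refine (Finset.sum_le_sum fun i _ => lintegral_mono_set ?_).trans h1
    exact Set.Icc_subset_Icc (by linarith) hδi
  have hsum := gbm_sum κ hκ hnn lam X b P (ENNReal.ofReal BDr) hBD
  have hcard := hR N T D hS ι F lam (fun _ => P)
    (fun i => ⟨(hF i).1, (hF i).2, by linarith⟩) hO δ hδ0 hδ1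
    (fun i => by rw [hδP]; exact hclec2)
  rw [← hM] at hcard
  have hW0 : 0 ≤ C1 * M ^ e := by positivity
  have hJ0 : ∀ i t, 0 ≤ 1 + ∫ τ, κ τ * ‖SD (lam i) X (t + b * τ)‖ := by
    intro i t
    have : 0 ≤ ∫ τ, κ τ * ‖SD (lam i) X (t + b * τ)‖ :=
      integral_nonneg fun τ => mul_nonneg (hnn τ) (norm_nonneg _)
    linarith
  have hR1 : (C1 * M ^ e) ^ 4 * (8 * ((Fintype.card ι : ℝ) * (2 * P) + K ^ 4 * BDr)) ≤
      C4 * M ^ ((2 * (m : ℝ) + 8) * e) * (N : ℝ) ^ m * δ⁻¹ ^ (m ^ 2) := by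
    have h2 : M ^ e ≤ M ^ ((2 * (m : ℝ) + 4) * e) := by
      refine Real.rpow_le_rpow_of_exponent_le hM1 ?_
      have : (0 : ℝ) ≤ m := Nat.cast_nonneg _
      nlinarith
    have h3 : (Fintype.card ι : ℝ) * (2 * P) ≤
        2 * C3 * M ^ ((2 * (m : ℝ) + 4) * e) * (N : ℝ) ^ m * δ⁻¹ ^ (m ^ 2) := by
      calc (Fintype.card ι : ℝ) * (2 * P) ≤ 2 * ((Fintype.card ι : ℝ) * δ⁻¹) := by
            have : (Fintype.card ι : ℝ) * P ≤ (Fintype.card ι : ℝ) * δ⁻¹ :=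
              mul_le_mul_of_nonneg_left hδi (Nat.cast_nonneg _)
            linarith
        _ ≤ 2 * (C3 * M ^ e * (N : ℝ) ^ m * δ⁻¹ ^ (m ^ 2)) := by linarith
        _ ≤ 2 * (C3 * M ^ ((2 * (m : ℝ) + 4) * e) * (N : ℝ) ^ m * δ⁻¹ ^ (m ^ 2)) := by gcongr
        _ = _ := by ring
    have h4 : (M ^ e) ^ 4 * M ^ ((2 * (m : ℝ) + 4) * e) = M ^ ((2 * (m : ℝ) + 8) * e) := by
      rw [← Real.rpow_natCast (M ^ e) 4, ← Real.rpow_mul hM0.le, ← Real.rpow_add hM0]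
      congr 1
      push_cast
      ring
    calc (C1 * M ^ e) ^ 4 * (8 * ((Fintype.card ι : ℝ) * (2 * P) + K ^ 4 * BDr))
        ≤ (C1 * M ^ e) ^ 4 * (8 * (2 * C3 * M ^ ((2 * (m : ℝ) + 4) * e) * (N : ℝ) ^ m *
          δ⁻¹ ^ (m ^ 2) + K ^ 4 * BDr)) := by gcongr
      _ = C4 * ((M ^ e) ^ 4 * M ^ ((2 * (m : ℝ) + 4) * e)) * (N : ℝ) ^ m * δ⁻¹ ^ (m ^ 2) := by
          rw [hC4, hBDr]
          ring
      _ = _ := by rw [h4]
  have hR2 : C4 * M ^ ((2 * (m : ℝ) + 8) * e) * (N : ℝ) ^ m * δ⁻¹ ^ (m ^ 2) ≤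
      C4 * (2 / c) ^ ((2 * (m : ℝ) + 8) * e) * (2 / c) ^ (m ^ 2) *
        ((N : ℝ) * P) ^ ((2 * (m : ℝ) + 8) * e) * (N : ℝ) ^ m * P ^ (m ^ 2) := by
    have h5 : M ^ ((2 * (m : ℝ) + 8) * e) ≤ (2 / c) ^ ((2 * (m : ℝ) + 8) * e) *
        ((N : ℝ) * P) ^ ((2 * (m : ℝ) + 8) * e) := by
      rw [← Real.mul_rpow (by positivity) (by positivity)]
      refine Real.rpow_le_rpow hM0.le ?_ (by positivity)
      calc M = (N : ℝ) * δ⁻¹ := hM
        _ ≤ (N : ℝ) * (2 / c * P) := by gcongr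
        _ = _ := by ring
    have h6 : δ⁻¹ ^ (m ^ 2) ≤ (2 / c) ^ (m ^ 2) * P ^ (m ^ 2) := by
      rw [← mul_pow]
      exact pow_le_pow_left₀ hδi0.le hδi2 _
    calc C4 * M ^ ((2 * (m : ℝ) + 8) * e) * (N : ℝ) ^ m * δ⁻¹ ^ (m ^ 2)
        ≤ C4 * ((2 / c) ^ ((2 * (m : ℝ) + 8) * e) * ((N : ℝ) * P) ^ ((2 * (m : ℝ) + 8) * e)) *
          (N : ℝ) ^ m * ((2 / c) ^ (m ^ 2) * P ^ (m ^ 2)) := by gcongr
      _ = _ := by ring
  calc ∑ i, ∫⁻ t in Set.Icc (-P) P, ENNReal.ofReal (Q i t ^ 4)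
      ≤ ∑ i, ∫⁻ t in Set.Icc (-P) P, ENNReal.ofReal ((C1 * M ^ e) ^ 4) *
        ENNReal.ofReal ((1 + ∫ τ, κ τ * ‖SD (lam i) X (t + b * τ)‖) ^ 4) := by
        refine Finset.sum_le_sum fun i _ => ?_
        refine setLIntegral_mono' measurableSet_Icc fun t ht => ?_
        have hq := hQ i t (abs_le.2 ht)
        rw [← ENNReal.ofReal_mul (by positivity), ← mul_pow]
        exact ENNReal.ofReal_le_ofReal (pow_le_pow_left₀ hq.1 hq.2 4)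
    _ = ENNReal.ofReal ((C1 * M ^ e) ^ 4) * ∑ i, ∫⁻ t in Set.Icc (-P) P,
        ENNReal.ofReal ((1 + ∫ τ, κ τ * ‖SD (lam i) X (t + b * τ)‖) ^ 4) := by
        rw [Finset.mul_sum]
        exact Finset.sum_congr rfl fun i _ => lintegral_const_mul' _ _ ENNReal.ofReal_ne_top
    _ ≤ ENNReal.ofReal ((C1 * M ^ e) ^ 4) * (8 * (Fintype.card ι * ENNReal.ofReal (2 * P) +
        ENNReal.ofReal K ^ 4 * ENNReal.ofReal BDr)) := mul_le_mul' le_rfl hsum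
    _ = ENNReal.ofReal ((C1 * M ^ e) ^ 4 *
        (8 * ((Fintype.card ι : ℝ) * (2 * P) + K ^ 4 * BDr))) := by
        exact gbm_num (Fintype.card ι) (by positivity) (by linarith) hK0 hBDr0
    _ ≤ _ := ENNReal.ofReal_le_ofReal (hR1.trans hR2)

lemma gbm_prod {m : ℕ} (P : ℝ) (s : ℂ) (mu : Fin m → ℂ) :
    ∏ k : Fin m, ∏ j, (‖s - ((k : ℕ) + 1) - mu j‖ / P) =
      (∏ k : Fin m, ∏ j, ‖s - ((k : ℕ) + 1) - mu j‖) / P ^ (m ^ 2) := by
  simp only [Finset.prod_div_distrib, Finset.prod_const, Finset.card_univ, Fintype.card_fin]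
  rw [← pow_mul, sq]

/-- the hybrid fourth moment, from the bound of helper23 -/
theorem pf_GBM : T_ENA → Pool.Agent.H23.GB.T_HYA → T_DYD → T_CRD → T_GBM := by
  intro hENA hHYA hDYD hCRD m hm ε hε
  have hm0 : (0 : ℝ) ≤ m := Nat.cast_nonneg _
  set e : ℝ := ε / (2 * m + 8) with he
  have he0 : 0 < e := by positivity
  have hee : (2 * (m : ℝ) + 8) * e = ε := by rw [he]; field_simp
  obtain ⟨k, C1, hk, hC1, h1⟩ := hHYA m hm e he0
  have hkint : Integrable k := by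
    obtain ⟨B, hB, hdec⟩ := hk.dec 2
    have hi : Integrable (fun τ : ℝ => (1 + ‖τ‖) ^ (-(2 : ℝ))) :=
      integrable_one_add_norm (by simp)
    refine (hi.const_mul B).mono' hk.cont.aestronglyMeasurable
      (Filter.Eventually.of_forall fun τ => ?_)
    rw [Real.norm_of_nonneg (hk.nn τ)]
    have := hdec τ
    rw [Real.norm_eq_abs]
    exact_mod_cast this
  obtain ⟨c, hc, hc1, -, hcore⟩ := gbm_core hDYD hCRD m hm e (C1 + 1) 1 1 he0 (by linarith)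
    one_pos k hkint hk.nn
  obtain ⟨C, hC, hfin⟩ := hcore C1 hC1
  refine ⟨C, hC, ?_⟩
  intro N _ T D hS P hP ι _ _ F lam mu hF hO
  have hN1 : (1 : ℝ) ≤ N := by exact_mod_cast Nat.one_le_iff_ne_zero.2 (NeZero.ne N)
  have hn1 : ∀ i, nU D (F i) = 1 := fun i => mou_nU F hO i
  have hnz : ∀ i, NZ (F i) := fun i => mou_nz hm hS.dom (F i) (by rw [hn1 i]; exact one_ne_zero)
  have hL0 : ∀ i, ∃ L : ℂ → ℂ, IsL m 1 (lam i) L := by
    intro i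
    obtain ⟨L, hL, -⟩ := hENA m N T D hS (F i) (lam i) (hF i).1.toCusB (hnz i)
    exact ⟨L, hL⟩
  choose L hL using hL0
  refine ⟨L, hL, ?_⟩
  set X : ℕ := ⌈C1 * ((N : ℝ) * P ^ m) ^ (1 / 2 : ℝ) * (N * P) ^ e⌉₊ with hX
  have hP0 : 0 < P := by linarith
  have hN0 : 0 < (N : ℝ) := by linarith
  have harg : 0 < C1 * ((N : ℝ) * P ^ m) ^ (1 / 2 : ℝ) * (N * P) ^ e := by positivity
  have hX1 : (1 : ℝ) ≤ (X : ℝ) := by
    exact_mod_cast Nat.ceil_pos.2 harg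
  set δi : ℝ := (c / (1 + P))⁻¹ with hδi
  have hPδ : P ≤ δi := by
    rw [hδi, inv_div, le_div_iff₀ hc]
    nlinarith
  have hδ0 : 0 < δi := by linarith
  have hXle : (X : ℝ) ≤ (C1 + 1) * ((N : ℝ) ^ ((1 : ℝ) / 2) * δi ^ ((m : ℝ) / 2)) *
      ((N : ℝ) * δi) ^ e := by
    have h2 : (X : ℝ) ≤ C1 * ((N : ℝ) * P ^ m) ^ (1 / 2 : ℝ) * (N * P) ^ e + 1 :=
      (Nat.ceil_lt_add_one harg.le).le
    have h3 : 1 ≤ ((N : ℝ) * P ^ m) ^ (1 / 2 : ℝ) * (N * P) ^ e := by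
      have h4 : 1 ≤ ((N : ℝ) * P ^ m) ^ (1 / 2 : ℝ) :=
        Real.one_le_rpow (by nlinarith [one_le_pow₀ hP (n := m)]) (by norm_num)
      have h5 : 1 ≤ ((N : ℝ) * P) ^ e := Real.one_le_rpow (by nlinarith) he0.le
      nlinarith
    have h6 : ((N : ℝ) * P ^ m) ^ (1 / 2 : ℝ) ≤
        (N : ℝ) ^ ((1 : ℝ) / 2) * δi ^ ((m : ℝ) / 2) := by
      rw [Real.mul_rpow hN0.le (by positivity)]
      refine mul_le_mul_of_nonneg_left ?_ (by positivity)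
      rw [← Real.rpow_natCast P m, ← Real.rpow_mul hP0.le]
      rw [show (m : ℝ) * (1 / 2) = (m : ℝ) / 2 by ring]
      exact Real.rpow_le_rpow hP0.le hPδ (by positivity)
    have h7 : ((N : ℝ) * P) ^ e ≤ ((N : ℝ) * δi) ^ e :=
      Real.rpow_le_rpow (by positivity) (by nlinarith) he0.le
    calc (X : ℝ) ≤ (C1 + 1) * (((N : ℝ) * P ^ m) ^ (1 / 2 : ℝ) * (N * P) ^ e) := by
          linarith
      _ ≤ (C1 + 1) * (((N : ℝ) ^ ((1 : ℝ) / 2) * δi ^ ((m : ℝ) / 2)) * ((N : ℝ) * δi) ^ e) := by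
          gcongr
      _ = _ := by ring
  have hh := hfin N T D hS P hP ι F lam (fun i => ⟨(hF i).1.toCusB, (hF i).2⟩) hO (X : ℝ) hX1 hXle
    (fun i t => ‖L i (1 / 2 + t * Complex.I)‖ *
        ∏ k : Fin m, ∏ j, (‖(1 / 2 + t * Complex.I : ℂ) - ((k : ℕ) + 1) - mu i j‖ / P)) ?_
  · rw [hee] at hh
    exact hh
  · intro i t ht
    refine ⟨by positivity, ?_⟩
    refine (h1 N T D hS (F i) (lam i) (mu i) P (hF i).1 (hn1 i) (hF i).2 hP (L i) (hL i) t ht X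
      (Nat.le_ceil _)).trans ?_
    have e1 : ∀ τ : ℝ, Pool.Agent.H23.GB.SX (lam i) X (1 / 2 + ((t + τ : ℝ) : ℂ) * Complex.I) =
        SD (lam i) (X : ℝ) (t + 1 * τ) := by
      intro τ
      unfold Pool.Agent.H23.GB.SX SD
      rw [Nat.floor_natCast, one_mul]
    simp only [e1]
    have h8 : ((N : ℝ) * P) ^ e ≤ ((N : ℝ) * δi) ^ e :=
      Real.rpow_le_rpow (by positivity) (by nlinarith) he0.le
    have h9 : 0 ≤ ∫ τ, k τ * ‖SD (lam i) (X : ℝ) (t + 1 * τ)‖ :=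
      integral_nonneg fun τ => mul_nonneg (hk.nn τ) (norm_nonneg _)
    gcongr

/-- the hybrid fourth moment, from the bound of helper68 -/
theorem pf_GBM2 : T_WIN → T_ENA → T_PWB → T_DYD → T_CRD → T_GBM := by
  rintro ⟨w, k, hw⟩ hENA hPWB hDYD hCRD m hm ε hε
  have hm0 : (0 : ℝ) ≤ m := Nat.cast_nonneg _
  set e : ℝ := ε / (2 * m + 8) with he
  have he0 : 0 < e := by positivity
  have hee : (2 * (m : ℝ) + 8) * e = ε := by rw [he]; field_simp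
  obtain ⟨c0, C0, A, hc0, hC0, hA, h1⟩ := hPWB w k hw m e hm he0
  obtain ⟨c, hc, hc1, hcc0, hcore⟩ := gbm_core hDYD hCRD m hm e A (-(1 / m)) c0 he0 hA
    hc0 (fun τ => ‖k τ‖) hw.cint.norm (fun τ => norm_nonneg _)
  obtain ⟨C, hC, hfin⟩ := hcore ((2 / c) ^ (m ^ 2) * C0) (by positivity)
  refine ⟨C, hC, ?_⟩
  intro N _ T D hS P hP ι _ _ F lam mu hF hO
  have hN1 : (1 : ℝ) ≤ N := by exact_mod_cast Nat.one_le_iff_ne_zero.2 (NeZero.ne N)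
  have hn1 : ∀ i, nU D (F i) = 1 := fun i => mou_nU F hO i
  have hnz : ∀ i, NZ (F i) := fun i => mou_nz hm hS.dom (F i) (by rw [hn1 i]; exact one_ne_zero)
  have hL0 : ∀ i, ∃ L : ℂ → ℂ, IsL m 1 (lam i) L ∧ ∀ ψ : ℝ → ℂ, Wc m ψ (lam i) →
      ∀ s : ℂ, LmA m ψ (lam i) s = L s * MelA m ψ s := by
    intro i
    exact hENA m N T D hS (F i) (lam i) (hF i).1.toCusB (hnz i)
  choose L hL hLm using hL0
  refine ⟨L, hL, ?_⟩
  have hP0 : 0 < P := by linarith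
  have hN0 : 0 < (N : ℝ) := by linarith
  set δ : ℝ := c / (1 + P) with hδ
  have h1P : 0 < 1 + P := by linarith
  have hδ0 : 0 < δ := by positivity
  have hδ1 : δ ≤ 1 / 2 := by
    rw [hδ, div_le_div_iff₀ h1P (by norm_num)]
    linarith
  have hδP : δ * (1 + P) = c := by rw [hδ]; field_simp
  have hδi1 : 1 ≤ δ⁻¹ := by
    rw [one_le_inv₀ hδ0]
    linarith
  have hδi0 : 0 < δ⁻¹ := by linarith
  have hδi2 : δ⁻¹ ≤ 2 / c * P := by
    rw [hδ, inv_div, div_le_iff₀ hc]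
    rw [show 2 / c * P * c = 2 * P by field_simp]
    linarith
  have hX1 : 1 ≤ A * ((N : ℝ) ^ ((1 : ℝ) / 2) * δ⁻¹ ^ ((m : ℝ) / 2)) *
      ((N : ℝ) * δ⁻¹) ^ e := by
    have h2 : 1 ≤ (N : ℝ) ^ ((1 : ℝ) / 2) := Real.one_le_rpow hN1 (by norm_num)
    have h3 : 1 ≤ δ⁻¹ ^ ((m : ℝ) / 2) := Real.one_le_rpow hδi1 (by positivity)
    have h4 : 1 ≤ ((N : ℝ) * δ⁻¹) ^ e := Real.one_le_rpow (by nlinarith) he0.le
    exact one_le_mul_of_one_le_of_one_le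
      (one_le_mul_of_one_le_of_one_le hA (one_le_mul_of_one_le_of_one_le h2 h3)) h4
  have hh := hfin N T D hS P hP ι F lam (fun i => ⟨(hF i).1.toCusB, (hF i).2⟩) hO _ hX1 le_rfl
    (fun i t => ‖L i (1 / 2 + t * Complex.I)‖ *
        ∏ k : Fin m, ∏ j, (‖(1 / 2 + t * Complex.I : ℂ) - ((k : ℕ) + 1) - mu i j‖ / P)) ?_
  · rw [hee] at hh
    exact hh
  · intro i t ht
    refine ⟨by positivity, ?_⟩
    have h2 := h1 N T D hS (F i) (lam i) (mu i) (hF i).1 (hn1 i) P δ (hF i).2 hP0.le hδ0 hδ1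
      (by rw [hδP]; exact hcc0) (L i) (hL i) (hLm i) t (by
        calc δ * |t| ≤ δ * (1 + P) := by
              refine mul_le_mul_of_nonneg_left ?_ hδ0.le
              linarith
          _ = c := hδP
          _ ≤ c0 := hcc0)
    have e1 : JK m k (lam i) (A * ((N : ℝ) ^ ((1 : ℝ) / 2) * δ⁻¹ ^ ((m : ℝ) / 2)) *
        ((N : ℝ) * δ⁻¹) ^ e) t = ∫ τ, ‖k τ‖ * ‖SD (lam i) (A * ((N : ℝ) ^ ((1 : ℝ) / 2) *
          δ⁻¹ ^ ((m : ℝ) / 2)) * ((N : ℝ) * δ⁻¹) ^ e) (t + -(1 / m) * τ)‖ := by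
      unfold JK
      refine integral_congr_ae (Filter.Eventually.of_forall fun τ => ?_)
      show ‖k τ‖ * ‖SD (lam i) _ (t - τ / m)‖ = ‖k τ‖ * ‖SD (lam i) _ (t + -(1 / m) * τ)‖
      rw [show t - τ / (m : ℝ) = t + -(1 / (m : ℝ)) * τ by ring]
    rw [e1] at h2
    set R : ℝ := 1 + ∫ τ, ‖k τ‖ * ‖SD (lam i) (A * ((N : ℝ) ^ ((1 : ℝ) / 2) *
      δ⁻¹ ^ ((m : ℝ) / 2)) * ((N : ℝ) * δ⁻¹) ^ e) (t + -(1 / m) * τ)‖ with hR
    rw [gbm_prod]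
    set Z : ℝ := ∏ k : Fin m, ∏ j, ‖(1 / 2 + t * Complex.I : ℂ) - ((k : ℕ) + 1) - mu i j‖ with hZ
    have hZ0 : 0 ≤ Z := by rw [hZ]; positivity
    have h3 : 1 / P ^ (m ^ 2) ≤ (2 / c) ^ (m ^ 2) * δ ^ (m ^ 2) := by
      rw [← mul_pow, div_le_iff₀ (by positivity), ← mul_pow]
      refine one_le_pow₀ ?_
      rw [show 2 / c * δ * P = (2 / c * P) * δ by ring]
      calc (1 : ℝ) = δ⁻¹ * δ := (inv_mul_cancel₀ hδ0.ne').symm
        _ ≤ _ := mul_le_mul_of_nonneg_right hδi2 hδ0.le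
    calc ‖L i (1 / 2 + t * Complex.I)‖ * (Z / P ^ (m ^ 2))
        = ‖L i (1 / 2 + t * Complex.I)‖ * Z * (1 / P ^ (m ^ 2)) := by ring
      _ ≤ ‖L i (1 / 2 + t * Complex.I)‖ * Z * ((2 / c) ^ (m ^ 2) * δ ^ (m ^ 2)) :=
          mul_le_mul_of_nonneg_left h3 (mul_nonneg (norm_nonneg _) hZ0)
      _ = (2 / c) ^ (m ^ 2) * (‖L i (1 / 2 + t * Complex.I)‖ * (δ ^ (m ^ 2) * Z)) := by ring
      _ ≤ (2 / c) ^ (m ^ 2) * (C0 * ((N : ℝ) * δ⁻¹) ^ e * R) :=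
          mul_le_mul_of_nonneg_left h2 (by positivity)
      _ = _ := by ring

end Pool.Agent.H25.GHY
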